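import Mathlib
import Pool.Agent.Lib.MP_2be980_co.Final

set_option autoImplicit false

/-!
The maximum sphere dimension `f n` of a graph on `n` vertices satisfies `n / 20 < f n` and
`f n ≤ 49 n / 50` for all large `n`; moreover every graph on `n` vertices is then the
intersection graph of pairwise distinct spheres of `ℝ^d` for some `d` with `2 ≤ d ≤ 49 n / 50`.
-/

theorem Pool.Agent.Results.MP_2be980_co.LinearBounds.result :
    ∃ N : ℕ, ∀ n ≥ N,
      (n < 20 * SphereDim.f n ∧ 50 * SphereDim.f n ≤ 49 * n) ∧
      (∀ G : SimpleGraph (Fin n),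
        ∃ d, 2 ≤ d ∧ 50 * d ≤ 49 * n ∧ SphereDim.InSphereInj d G) :=
  SphereDim.final
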